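import Pool.Agent.N804.GM.Stm

/-!
# Project GM, GM/6: the converse for the Poisson means (helper572)
-/

set_option autoImplicit false

namespace Pool.Agent.N572.GM6

open Filter Topology Set MeasureTheory
open Pool.Agent.N804.GM

/-- the kernel times the logarithm is integrable -/
theorem int_log : Integrable (fun y : ℝ => Real.log (1 + |y|) / (1 + y ^ 2)) := by
  have h1 : Integrable (fun y : ℝ => 4 * (1 + ‖y‖) ^ (-(3 / 2 : ℝ))) := by
    apply Integrable.const_mul
    apply integrable_one_add_norm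
    simp only [Module.finrank_self, Nat.cast_one]
    norm_num
  refine h1.mono' ?_ ?_
  · apply Measurable.aestronglyMeasurable
    fun_prop
  · refine Filter.Eventually.of_forall (fun y => ?_)
    have hy : 0 ≤ |y| := abs_nonneg y
    have hp : (0 : ℝ) < 1 + |y| := by linarith
    have hq : (0 : ℝ) < 1 + y ^ 2 := by positivity
    have hl0 : 0 ≤ Real.log (1 + |y|) := Real.log_nonneg (by linarith)
    rw [Real.norm_of_nonneg (div_nonneg hl0 hq.le), Real.norm_eq_abs, div_le_iff₀ hq]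
    have h2 : Real.log (1 + |y|) ≤ (1 + |y|) ^ (1 / 2 : ℝ) / (1 / 2 : ℝ) :=
      Real.log_le_rpow_div hp.le (by norm_num)
    have h3 : (1 + |y|) ^ (1 / 2 : ℝ) = (1 + |y|) ^ (-(3 / 2 : ℝ)) * (1 + |y|) ^ (2 : ℕ) := by
      rw [← Real.rpow_natCast, ← Real.rpow_add hp]
      norm_num
    have h4 : (1 + |y|) ^ (2 : ℕ) ≤ 2 * (1 + y ^ 2) := by
      nlinarith [sq_nonneg (1 - |y|), sq_abs y]
    have h5 : (0 : ℝ) < (1 + |y|) ^ (-(3 / 2 : ℝ)) := Real.rpow_pos_of_pos hp _
    rw [h3] at h2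
    nlinarith [mul_le_mul_of_nonneg_left h4 h5.le]

/-- GM/6 -/
theorem main : S_CV := by
  intro hL ε hε
  obtain ⟨C, hC⟩ := hL (ε / 8) (by positivity)
  obtain ⟨D, hD⟩ : ∃ D : ℝ, D = max C 1 := ⟨_, rfl⟩
  have hD1 : 1 ≤ D := by rw [hD]; exact le_max_right _ _
  have hCD : C ≤ D := by rw [hD]; exact le_max_left _ _
  have hlD : 0 ≤ Real.log D := Real.log_nonneg hD1
  obtain ⟨K, hK⟩ : ∃ K : ℝ, K = ∫ y : ℝ, Real.log (1 + |y|) / (1 + y ^ 2) := ⟨_, rfl⟩
  have hK0 : 0 ≤ K := by
    rw [hK]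
    apply integral_nonneg
    intro y
    exact div_nonneg (Real.log_nonneg (by linarith [abs_nonneg y])) (by positivity)
  have hz : ∀ u : ℝ, Real.log ‖riemannZeta (1 / 2 + u * Complex.I)‖ ≤
      Real.log D + ε / 8 * Real.log (1 + |u|) := by
    intro u
    have hu : (0 : ℝ) < 1 + |u| := by linarith [abs_nonneg u]
    have hl : 0 ≤ Real.log (1 + |u|) := Real.log_nonneg (by linarith [abs_nonneg u])
    rcases (norm_nonneg (riemannZeta (1 / 2 + u * Complex.I))).eq_or_lt with h0 | h0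
    · rw [← h0, Real.log_zero]
      positivity
    · calc Real.log ‖riemannZeta (1 / 2 + u * Complex.I)‖
          ≤ Real.log (D * (1 + |u|) ^ (ε / 8)) := by
            apply Real.log_le_log h0
            refine (hC u).trans ?_
            have : 0 ≤ (1 + |u|) ^ (ε / 8) := Real.rpow_nonneg hu.le _
            nlinarith
        _ = _ := by
            rw [Real.log_mul (by linarith) (Real.rpow_pos_of_pos hu _).ne', Real.log_rpow hu]
  have hlog : ∀ u t : ℝ, Real.log (1 + |u|) ≤ Real.log (1 + |t|) + Real.log (1 + |u - t|) := by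
    intro u t
    have h1 : (0 : ℝ) < 1 + |t| := by linarith [abs_nonneg t]
    have h2 : (0 : ℝ) < 1 + |u - t| := by linarith [abs_nonneg (u - t)]
    rw [← Real.log_mul h1.ne' h2.ne']
    apply Real.log_le_log (by linarith [abs_nonneg u])
    have h3 : |u| ≤ |t| + |u - t| := by
      have := abs_add_le t (u - t)
      simpa using this
    nlinarith [mul_nonneg (abs_nonneg t) (abs_nonneg (u - t))]
  obtain ⟨B, hB⟩ : ∃ B : ℝ, B = 2 / ε * (4 * Real.log D + ε / 2 + ε / 8 * K) := ⟨_, rfl⟩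
  have hB0 : 0 ≤ B := by rw [hB]; positivity
  refine ⟨Real.exp B, ?_⟩
  intro t ht
  have ht1 : 1 ≤ t := le_trans (Real.one_le_exp hB0) ht
  have ht0 : 0 < t := by linarith
  have hlt : B ≤ Real.log t := by
    rw [Real.le_log_iff_exp_le ht0]
    exact ht
  have hlt0 : 0 ≤ Real.log t := hB0.trans hlt
  by_cases hI : Integrable (fun u : ℝ => Real.log ‖riemannZeta (1 / 2 + u * Complex.I)‖ /
      (1 + (u - t) ^ 2))
  swap
  · unfold VV
    rw [integral_undef hI]
    positivity
  -- the majorant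
  obtain ⟨A, hA⟩ : ∃ A : ℝ, A = Real.log D + ε / 8 * Real.log (1 + t) := ⟨_, rfl⟩
  have hF : Integrable (fun y : ℝ => A * (1 + y ^ 2)⁻¹ +
      ε / 8 * (Real.log (1 + |y|) / (1 + y ^ 2))) :=
    (integrable_inv_one_add_sq.const_mul A).add (int_log.const_mul (ε / 8))
  have hle : VV t ≤ ∫ u : ℝ, (fun y : ℝ => A * (1 + y ^ 2)⁻¹ +
      ε / 8 * (Real.log (1 + |y|) / (1 + y ^ 2))) (u - t) := by
    unfold VV
    apply integral_mono hI (hF.comp_sub_right t)
    intro u
    simp only
    have hq : (0 : ℝ) < 1 + (u - t) ^ 2 := by positivity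
    have h1 := hz u
    have h2 := hlog u t
    rw [abs_of_pos ht0] at h2
    have h3 : Real.log ‖riemannZeta (1 / 2 + u * Complex.I)‖ ≤
        A + ε / 8 * Real.log (1 + |u - t|) := by
      rw [hA]
      nlinarith
    calc Real.log ‖riemannZeta (1 / 2 + u * Complex.I)‖ / (1 + (u - t) ^ 2)
        ≤ (A + ε / 8 * Real.log (1 + |u - t|)) / (1 + (u - t) ^ 2) := by gcongr
      _ = _ := by ring
  have hint : ∫ u : ℝ, (fun y : ℝ => A * (1 + y ^ 2)⁻¹ +
      ε / 8 * (Real.log (1 + |y|) / (1 + y ^ 2))) (u - t) = A * Real.pi + ε / 8 * K := by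
    rw [integral_sub_right_eq_self (fun y : ℝ => A * (1 + y ^ 2)⁻¹ +
      ε / 8 * (Real.log (1 + |y|) / (1 + y ^ 2))) t]
    rw [integral_add (integrable_inv_one_add_sq.const_mul A) (int_log.const_mul (ε / 8)),
      integral_const_mul, integral_const_mul, integral_univ_inv_one_add_sq, hK]
  rw [hint] at hle
  refine hle.trans ?_
  have hl1 : Real.log (1 + t) ≤ 1 + Real.log t := by
    have h1 : Real.log (1 + t) ≤ Real.log (2 * t) := Real.log_le_log (by linarith) (by linarith)
    rw [Real.log_mul (by norm_num) ht0.ne'] at h1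
    have h2 : Real.log 2 ≤ 2 - 1 := Real.log_le_sub_one_of_pos (by norm_num)
    linarith
  have hA0 : A ≤ Real.log D + ε / 8 * (1 + Real.log t) := by
    rw [hA]
    gcongr
  have hAp : 0 ≤ Real.log D + ε / 8 * (1 + Real.log t) := by positivity
  have hpi : Real.pi ≤ 4 := Real.pi_le_four
  have h6 : A * Real.pi ≤ (Real.log D + ε / 8 * (1 + Real.log t)) * 4 :=
    calc A * Real.pi ≤ (Real.log D + ε / 8 * (1 + Real.log t)) * Real.pi :=
          mul_le_mul_of_nonneg_right hA0 Real.pi_pos.le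
      _ ≤ _ := mul_le_mul_of_nonneg_left hpi hAp
  have h7 : 4 * Real.log D + ε / 2 + ε / 8 * K ≤ ε / 2 * Real.log t := by
    have h8 : ε / 2 * B = 4 * Real.log D + ε / 2 + ε / 8 * K := by
      rw [hB]
      field_simp
    rw [← h8]
    gcongr
  linarith

end Pool.Agent.N572.GM6
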