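import Pool.Agent.N906.KG.Stm
import Pool.Agent.N539.NT_GUPN
import Pool.Agent.W223.AK.Basic

/-!
# Project KG (helper906), part GUPK (helper572): the generating function over tuples of ideals, upper bound

Port of `Pool/Agent/N539/NT_GUPN.lean` to number fields.
-/

set_option autoImplicit false

namespace Pool.Agent.N572.KG

open NumberField IsDedekindDomain Finset Filter Topology Pool.Agent.H691R3 Pool.Agent.W223.AK
open Pool.Agent.N906.NT (Cx)
open Pool.Agent.N906.KG
open Pool.Agent.N539.NT (loc)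

section

variable {K : Type} [Field K] [NumberField K] {n : ℕ}

theorem mem_sp (D : Fin n → Idl K) (v : Pr K) : v ∈ sp D ↔ ∃ i, D i v ≠ 0 := by
  classical
  unfold sp
  rw [mem_biUnion]
  simp only [mem_univ, true_and, Finsupp.mem_support_iff]

theorem exp_tr (D : Fin n → Idl K) : Real.exp (tr D) = ∏ v ∈ sp D, Nv v := by
  unfold tr
  rw [Real.exp_sum]
  exact prod_congr rfl fun v _ => Real.exp_log (Nv_pos v)

theorem tl_eq (D : Fin n → Idl K) :
    tl D = ∑ v ∈ sp D, ((∑ i, D i v : ℕ) : ℝ) * Real.log (Nv v) := by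
  classical
  unfold tl len
  have h : ∀ i ∈ (univ : Finset (Fin n)), ∑ v ∈ (D i).support, (D i v : ℝ) * Real.log (Nv v) =
      ∑ v ∈ sp D, (D i v : ℝ) * Real.log (Nv v) := by
    intro i _
    refine sum_subset ?_ fun v _ hv => ?_
    · intro v hv
      rw [mem_sp]
      exact ⟨i, Finsupp.mem_support_iff.1 hv⟩
    · rw [Finsupp.notMem_support_iff.1 hv]
      simp
  rw [sum_congr rfl h, sum_comm]
  refine sum_congr rfl fun v _ => ?_
  push_cast
  rw [sum_mul]

theorem exp_gl (D : Fin n → Idl K) :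
    Real.exp (gl D) = ∏ v ∈ sp D, (Nv v) ^ (∑ i, D i v - 1) := by
  have h1 : gl D = ∑ v ∈ sp D, ((∑ i, D i v - 1 : ℕ) : ℝ) * Real.log (Nv v) := by
    unfold gl tr
    rw [tl_eq, ← sum_sub_distrib]
    refine sum_congr rfl fun v hv => ?_
    obtain ⟨i, hi⟩ := (mem_sp D v).1 hv
    have h2 : 1 ≤ ∑ i, D i v :=
      (Nat.one_le_iff_ne_zero.2 hi).trans
        (single_le_sum (f := fun i => D i v) (fun _ _ => Nat.zero_le _) (mem_univ i))
    rw [Nat.cast_sub h2]
    push_cast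
    ring
  rw [h1, Real.exp_sum]
  refine prod_congr rfl fun v _ => ?_
  rw [Real.exp_nat_mul, Real.exp_log (Nv_pos v)]

end

/-- GUPK -/
theorem gupk (K : Type) [Field K] [NumberField K] (h : S_EUPK K) : S_GUPK K := by
  classical
  intro n Δ r t μ θ ε hΔ hμ hθ0 hθ1 hε
  obtain ⟨u₀, hu0, hu1, H⟩ := h r t (2 ^ (n + 1)) μ θ ε hΔ.1 hΔ.2.1 hμ hθ0 hθ1 hε
  refine ⟨u₀, hu0, hu1, fun u hu huu F hF => ?_⟩
  obtain ⟨P, hP⟩ : ∃ P : Finset (Pr K), P = F.biUnion fun D => sp D := ⟨_, rfl⟩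
  obtain ⟨E, hE⟩ : ∃ E : ℕ, ∀ D ∈ F, ∀ i v, D i v ≤ E := by
    refine ⟨F.sup fun D => univ.sup fun i => (D i).support.sup fun v => D i v, fun D hD i v => ?_⟩
    by_cases hv : v ∈ (D i).support
    · exact ((le_sup (f := fun v => D i v) hv).trans
        (le_sup (f := fun i => (D i).support.sup fun v => D i v) (mem_univ i))).trans
        (le_sup (f := fun D : Fin n → Idl K => univ.sup fun i => (D i).support.sup fun v => D i v)
          hD)
    · rw [Finsupp.notMem_support_iff.1 hv]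
      exact Nat.zero_le _
  obtain ⟨X, hX⟩ : ∃ X : Finset (Fin n → ℕ), X = (Fintype.piFinset fun _ => range (E + 1)).filter
    fun e => 2 ≤ ∑ i, e i ∧ (univ.filter fun i => e i ≠ 0) ∈ Δ := ⟨_, rfl⟩
  have hXm : ∀ e, e ∈ X ↔ (∀ i, e i ≤ E) ∧ 2 ≤ ∑ i, e i ∧ (univ.filter fun i => e i ≠ 0) ∈ Δ := by
    intro e
    rw [hX, mem_filter, Fintype.mem_piFinset]
    simp only [mem_range, Nat.lt_succ_iff]
  have h0X : (0 : Fin n → ℕ) ∉ X := by
    intro h0
    have := ((hXm 0).1 h0).2.1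
    simp at this
  obtain ⟨f, hf⟩ : ∃ f : Pr K → (Fin n → ℕ) → ℝ, f = fun (v : Pr K) (e : Fin n → ℕ) =>
    if e = 0 then 1 else
      μ * ((Nv v) ^ (∑ i, e i - 1)) ^ (-u) * (Nv v) ^ (-(1 - θ * u)) := ⟨_, rfl⟩
  have hf0 : ∀ p e, 0 ≤ f p e := by
    intro p e
    have hp0 := Nv_pos p
    rw [hf]
    simp only
    split_ifs
    · exact zero_le_one
    · positivity
  obtain ⟨B, hB⟩ : ∃ B : Pr K → ℝ, B = fun (p : Pr K) => 1 + μ * (Nv p) ^ (θ * u - 1) *
    (t / ((Nv p) ^ u - 1) ^ r + ((r : ℝ) - 1) * ((2 ^ (n + 1) : ℕ) : ℝ) *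
      (1 / ((Nv p) ^ u - 1) + 1 / ((Nv p) ^ u - 1) ^ (r - 1))) := ⟨_, rfl⟩
  have hloc : ∀ p : Pr K, ∑ e ∈ insert 0 X, f p e ≤ B p := by
    intro p
    have hp1 : (1 : ℝ) < Nv p := Nv_one_lt p
    have hp0 : (0 : ℝ) < Nv p := Nv_pos p
    have hy : 1 < (Nv p) ^ u := Real.one_lt_rpow hp1 hu
    obtain ⟨q, hq⟩ : ∃ q : ℝ, q = (Nv p) ^ (-u) := ⟨_, rfl⟩
    have hq0 : 0 < q := by rw [hq]; positivity
    have hqy : q * (Nv p) ^ u = 1 := by
      rw [hq, ← Real.rpow_add hp0, neg_add_cancel, Real.rpow_zero]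
    have hq1 : q < 1 := by
      by_contra hcon
      rw [not_lt] at hcon
      nlinarith
    have hz : 1 / ((Nv p) ^ u - 1) = q / (1 - q) := by
      have h1 : (Nv p) ^ u - 1 ≠ 0 := by linarith
      have h2 : 1 - q ≠ 0 := by linarith
      rw [div_eq_div_iff h1 h2]
      linarith
    have h1 := loc Δ r t hΔ E q _ hq0 hq1 hz X fun e he => (hXm e).1 he
    rw [sum_insert h0X]
    have h2 : f p 0 = 1 := by
      rw [hf]
      simp
    have h3 : ∑ e ∈ X, f p e = μ * (Nv p) ^ (θ * u - 1) * ∑ e ∈ X, q ^ (∑ i, e i - 1) := by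
      rw [mul_sum]
      refine sum_congr rfl fun e he => ?_
      have h4 : e ≠ 0 := fun h5 => h0X (h5 ▸ he)
      rw [hf]
      simp only [if_neg h4]
      have h5 : -(1 - θ * u) = θ * u - 1 := by ring
      have h6 : ((Nv p) ^ (∑ i, e i - 1)) ^ (-u) = q ^ (∑ i, e i - 1) := by
        rw [hq, ← Real.rpow_natCast, ← Real.rpow_mul hp0.le, mul_comm, Real.rpow_mul hp0.le,
          Real.rpow_natCast]
      rw [h5, h6]
      ring
    rw [h2, h3, hB]
    simp only
    have h4 : 0 ≤ μ * (Nv p) ^ (θ * u - 1) := by positivity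
    have h5 := mul_le_mul_of_nonneg_left h1 h4
    have h6 : t * (1 / ((Nv p) ^ u - 1)) ^ r = t / ((Nv p) ^ u - 1) ^ r := by
      rw [one_div, inv_pow, div_eq_mul_inv]
    have h7 : (1 / ((Nv p) ^ u - 1)) ^ (r - 1) = 1 / ((Nv p) ^ u - 1) ^ (r - 1) := by
      rw [one_div, inv_pow, one_div]
    rw [h6, h7] at h5
    linarith
  obtain ⟨Φ, hΦ⟩ : ∃ Φ : (Fin n → Idl K) → (P → (Fin n → ℕ)),
    Φ = fun D p i => D i p := ⟨_, rfl⟩
  have hPF : ∀ D ∈ F, sp D ⊆ P := by
    intro D hD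
    rw [hP]
    exact subset_biUnion_of_mem (fun D => sp D) hD
  have hinj : Set.InjOn Φ (F : Set (Fin n → Idl K)) := by
    intro D hD D' hD' hDD
    rw [mem_coe] at hD hD'
    funext i
    refine Finsupp.ext fun p => ?_
    by_cases hp : p ∈ P
    · have h1 := congrFun (congrFun hDD ⟨p, hp⟩) i
      rw [hΦ] at h1
      exact h1
    · have h2 : ∀ D ∈ F, D i p = 0 := by
        intro D hD
        by_contra hcon
        exact hp (hPF D hD ((mem_sp D p).2 ⟨i, hcon⟩))
      rw [h2 D hD, h2 D' hD']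
  have hmem : ∀ D ∈ F, Φ D ∈ Fintype.piFinset fun _ : P => insert 0 X := by
    intro D hD
    rw [Fintype.mem_piFinset]
    intro p
    rw [mem_insert]
    by_cases hp : (p : Pr K) ∈ sp D
    · right
      rw [hXm]
      refine ⟨fun i => ?_, ?_, ?_⟩
      · rw [hΦ]
        exact hE D hD i p
      · have h1 : ∑ i, Φ D p i = ∑ i, D i p := by
          rw [hΦ]
        rw [h1]
        obtain ⟨i, hi⟩ := (mem_sp D p).1 hp
        have h2 : 1 ≤ ∑ i, D i p :=
          (Nat.one_le_iff_ne_zero.2 hi).trans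
            (single_le_sum (f := fun i => D i (p : Pr K)) (fun _ _ => Nat.zero_le _) (mem_univ i))
        have h3 := (hF D hD).2 p
        omega
      · have h1 : (univ.filter fun i => Φ D p i ≠ 0) = univ.filter fun i => D i p ≠ 0 := by
          rw [hΦ]
        rw [h1]
        exact (hF D hD).1 p
    · left
      funext i
      rw [hΦ]
      by_contra hcon
      exact hp ((mem_sp D p).2 ⟨i, hcon⟩)
  have hw : ∀ D ∈ F, μ ^ om D * Real.exp (-(u * gl D) - (1 - θ * u) * tr D) =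
      ∏ p : P, f p (Φ D p) := by
    intro D hD
    have h1 : ∏ p : P, f p (Φ D p) = ∏ p ∈ P, f p (fun i => D i p) := by
      rw [hΦ]
      exact prod_coe_sort P fun p => f p fun i => D i p
    have h2 : ∏ p ∈ P, f p (fun i => D i p) = ∏ p ∈ sp D, f p (fun i => D i p) := by
      refine (prod_subset (hPF D hD) fun p hp hp' => ?_).symm
      have h3 : (fun i => D i p) = 0 := by
        funext i
        by_contra hcon
        exact hp' ((mem_sp D p).2 ⟨i, hcon⟩)
      rw [h3, hf]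
      simp
    rw [h1, h2]
    have h3 : ∀ p ∈ sp D, f p (fun i => D i p) =
        μ * ((Nv p) ^ (∑ i, D i p - 1)) ^ (-u) * (Nv p) ^ (-(1 - θ * u)) := by
      intro p hp
      have h4 : (fun i => D i p) ≠ 0 := by
        intro h5
        obtain ⟨i, hi⟩ := (mem_sp D p).1 hp
        exact hi (congrFun h5 i)
      rw [hf]
      simp only [if_neg h4]
    have hnn : ∀ p : Pr K, 0 ≤ Nv p := fun p => (Nv_pos p).le
    rw [prod_congr rfl h3, prod_mul_distrib, prod_mul_distrib, prod_const,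
      Real.finsetProd_rpow _ _ (fun p _ => pow_nonneg (hnn p) _),
      Real.finsetProd_rpow _ _ (fun p _ => hnn p), ← exp_gl, ← exp_tr, ← Real.exp_mul,
      ← Real.exp_mul, mul_assoc, ← Real.exp_add]
    unfold om
    congr 2
    ring
  have hB1 : ∀ p ∈ P, 1 ≤ B p := by
    intro p hp
    refine le_trans ?_ (hloc p)
    rw [sum_insert h0X]
    have h2 : f p 0 = 1 := by
      rw [hf]
      simp
    rw [h2]
    have := sum_nonneg fun e (_ : e ∈ X) => hf0 p e
    linarith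
  calc ∑ D ∈ F, μ ^ om D * Real.exp (-(u * gl D) - (1 - θ * u) * tr D)
      = ∑ D ∈ F, ∏ p : P, f p (Φ D p) := sum_congr rfl hw
    _ = ∑ x ∈ F.image Φ, ∏ p : P, f p (x p) :=
        (sum_image (f := fun x : P → (Fin n → ℕ) => ∏ p : P, f p (x p)) hinj).symm
    _ ≤ ∑ x ∈ Fintype.piFinset (fun _ : P => insert 0 X), ∏ p : P, f p (x p) :=
        sum_le_sum_of_subset_of_nonneg (image_subset_iff.2 hmem) fun x _ _ =>
          prod_nonneg fun p _ => hf0 _ _
    _ = ∏ p : P, ∑ e ∈ insert 0 X, f p e := (prod_univ_sum _ _).symm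
    _ ≤ ∏ p : P, B p := prod_le_prod (fun p _ => sum_nonneg fun e _ => hf0 _ _)
        fun p _ => hloc p
    _ = ∏ p ∈ P, B p := prod_coe_sort P B
    _ = Real.exp (∑ p ∈ P, Real.log (B p)) := by
        rw [Real.exp_sum]
        refine prod_congr rfl fun p hp => (Real.exp_log ?_).symm
        have := hB1 p hp
        linarith
    _ ≤ _ := by
        refine Real.exp_le_exp.2 ?_
        rw [hB]
        exact H u hu huu P

end Pool.Agent.N572.KG
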