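import Pool.Agent.N404.KL.Stm2

/-!
# Project KL, part BIN (helper572): lower bound for the central binomial probabilities
-/

set_option autoImplicit false

namespace Pool.Agent.N572.KLBIN

open Finset Classical Pool.Agent.N404.LF Pool.Agent.N404.KL

/-- the sum over the symmetric interval of length `m + 1` -/
noncomputable def Sy (m : ℕ) (F : ℝ → ℝ) : ℝ := ∑ j ∈ range (m + 1), F (2 * j - m)

/-- the binomial average (not normalised) -/
noncomputable def bs (d : ℕ) (F : ℝ → ℝ) : ℝ := ∑ i ∈ range (d + 1), (d.choose i : ℝ) * F (2 * i - d)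

theorem bs_succ (d : ℕ) (F : ℝ → ℝ) : bs (d + 1) F = bs d (fun x => F (x + 1) + F (x - 1)) := by
  unfold bs
  rw [Finset.sum_range_succ']
  have h1 : ∑ k ∈ range (d + 1), ((d + 1).choose (k + 1) : ℝ) *
      F (2 * ((k + 1 : ℕ) : ℝ) - ((d + 1 : ℕ) : ℝ)) =
      ∑ k ∈ range (d + 1), (d.choose k : ℝ) * F (2 * (k : ℝ) - d + 1) +
      ∑ k ∈ range (d + 1), (d.choose (k + 1) : ℝ) * F (2 * (k : ℝ) - d + 1) := by
    rw [← Finset.sum_add_distrib]
    refine Finset.sum_congr rfl fun k _ => ?_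
    rw [Nat.choose_succ_succ]
    push_cast
    have : 2 * ((k : ℝ) + 1) - ((d : ℝ) + 1) = 2 * k - d + 1 := by ring
    rw [this]
    ring
  rw [h1]
  have h2 : ∑ k ∈ range (d + 1), (d.choose k : ℝ) * F (2 * (k : ℝ) - d - 1) =
      ∑ k ∈ range (d + 1), (d.choose (k + 1) : ℝ) * F (2 * (k : ℝ) - d + 1) +
        F (-(d : ℝ) - 1) := by
    rw [Finset.sum_range_succ' _ d, Finset.sum_range_succ _ d]
    rw [Nat.choose_succ_self, Nat.cast_zero, zero_mul, add_zero]
    congr 1
    · refine Finset.sum_congr rfl fun k _ => ?_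
      congr 2
      push_cast
      ring
    · simp
  simp only [mul_add, Finset.sum_add_distrib]
  rw [h2]
  simp only [Nat.choose_zero_right, Nat.cast_one, Nat.cast_zero, mul_zero, one_mul]
  have h3 : (0 : ℝ) - ((d + 1 : ℕ) : ℝ) = -(d : ℝ) - 1 := by push_cast; ring
  rw [h3]
  ring

theorem Sy_shift (m : ℕ) (F : ℝ → ℝ) (h : ∀ m, 0 ≤ Sy m F) :
    0 ≤ Sy m (fun x => F (x + 1) + F (x - 1)) := by
  have h1 : Sy m (fun x => F (x + 1) + F (x - 1)) =
      (∑ j ∈ range (m + 1), F (2 * (j : ℝ) - m + 1)) + F (-(m : ℝ) - 1) +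
      ∑ j ∈ range m, F (2 * ((j + 1 : ℕ) : ℝ) - m - 1) := by
    unfold Sy
    rw [Finset.sum_add_distrib, Finset.sum_range_succ' (fun j : ℕ => F (2 * (j : ℝ) - m - 1)) m]
    simp only [Nat.cast_zero, mul_zero, zero_sub]
    ring
  have h2 : Sy (m + 1) F = (∑ j ∈ range (m + 1), F (2 * (j : ℝ) - m + 1)) + F (-(m : ℝ) - 1) := by
    unfold Sy
    rw [Finset.sum_range_succ']
    congr 1
    · refine Finset.sum_congr rfl fun j _ => ?_
      congr 1
      push_cast
      ring
    · congr 1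
      push_cast
      ring
  rw [h1, ← h2]
  refine add_nonneg (h _) ?_
  cases m with
  | zero => simp
  | succ m =>
    have h3 : ∑ j ∈ range (m + 1), F (2 * ((j + 1 : ℕ) : ℝ) - ((m + 1 : ℕ) : ℝ) - 1) = Sy m F := by
      unfold Sy
      refine Finset.sum_congr rfl fun j _ => ?_
      congr 1
      push_cast
      ring
    rw [h3]
    exact h m

theorem bs_nonneg : ∀ (d : ℕ) (F : ℝ → ℝ), (∀ m, 0 ≤ Sy m F) → 0 ≤ bs d F := by
  intro d
  induction d with
  | zero =>
    intro F h
    have h1 := h 0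
    unfold Sy at h1
    unfold bs
    simpa using h1
  | succ d ih =>
    intro F h
    rw [bs_succ]
    exact ih _ fun m => Sy_shift m F h

theorem bs_add (d : ℕ) (F G : ℝ → ℝ) : bs d (fun x => F x + G x) = bs d F + bs d G := by
  unfold bs
  simp only [mul_add, Finset.sum_add_distrib]

theorem bs_smul (d : ℕ) (c : ℝ) (F : ℝ → ℝ) : bs d (fun x => c * F x) = c * bs d F := by
  unfold bs
  rw [Finset.mul_sum]
  refine Finset.sum_congr rfl fun i _ => ?_
  ring

theorem bs_one (d : ℕ) : bs d (fun _ => 1) = 2 ^ d := by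
  induction d with
  | zero => simp [bs]
  | succ d ih =>
    rw [bs_succ]
    have : bs d (fun _ => (1 : ℝ) + 1) = bs d (fun _ => 1) + bs d (fun _ => 1) := bs_add d _ _
    rw [this, ih]
    ring

theorem bs_sq (d : ℕ) : bs d (fun x => x ^ 2) = d * 2 ^ d := by
  induction d with
  | zero => simp [bs]
  | succ d ih =>
    rw [bs_succ]
    have : bs d (fun x => (x + 1) ^ 2 + (x - 1) ^ 2) =
        2 * bs d (fun x => x ^ 2) + 2 * bs d (fun _ => 1) := by
      rw [← bs_smul, ← bs_smul, ← bs_add]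
      congr 1
      funext x
      ring
    rw [this, ih, bs_one]
    push_cast
    ring

theorem Sy_sq (m : ℕ) : Sy m (fun x => x ^ 2) = m * (m + 1) * (m + 2) / 3 := by
  have h : ∀ (n : ℕ) (c : ℝ), ∑ j ∈ range n, (2 * (j : ℝ) - c) ^ 2 =
      4 * ((n : ℝ) * (n - 1) * (2 * n - 1) / 6) - 2 * c * (n * (n - 1)) + n * c ^ 2 := by
    intro n c
    induction n with
    | zero => simp
    | succ n ih =>
      rw [Finset.sum_range_succ, ih]
      push_cast
      ring
  unfold Sy
  rw [h]
  push_cast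
  ring

/-- the number of the points of the interval which are at most `K` -/
theorem Sy_ind (m K : ℕ) :
    min ((m : ℝ) + 1) K ≤ Sy m (fun x => if |x| ≤ (K : ℝ) then 1 else 0) := by
  unfold Sy
  rw [← Finset.sum_filter, Finset.sum_const, nsmul_eq_mul, mul_one]
  rcases le_or_gt m K with h | h
  · refine (min_le_left _ _).trans ?_
    have h1 : (range (m + 1)).filter (fun j : ℕ => |2 * (j : ℝ) - m| ≤ (K : ℝ)) = range (m + 1) := by
      rw [Finset.filter_eq_self]
      intro j hj
      rw [Finset.mem_range] at hj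
      have h2 : (j : ℝ) ≤ m := by exact_mod_cast Nat.lt_succ_iff.1 hj
      have h3 : (m : ℝ) ≤ K := by exact_mod_cast h
      have h4 : (0 : ℝ) ≤ j := Nat.cast_nonneg j
      rw [abs_le]
      constructor <;> linarith
    rw [h1, Finset.card_range]
    push_cast
    exact le_rfl
  · refine (min_le_right _ _).trans ?_
    have h1 : Finset.Icc ((m - K + 1) / 2) ((m + K) / 2) ⊆
        (range (m + 1)).filter (fun j : ℕ => |2 * (j : ℝ) - m| ≤ (K : ℝ)) := by
      intro j hj
      rw [Finset.mem_Icc] at hj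
      rw [Finset.mem_filter, Finset.mem_range]
      refine ⟨by omega, ?_⟩
      have h2 : 2 * j ≤ m + K := by omega
      have h3 : m ≤ 2 * j + K := by omega
      have h2' : 2 * (j : ℝ) ≤ m + K := by exact_mod_cast h2
      have h3' : (m : ℝ) ≤ 2 * j + K := by exact_mod_cast h3
      rw [abs_le]
      constructor <;> linarith
    have h4 := Finset.card_le_card h1
    rw [Nat.card_Icc] at h4
    have h5 : K ≤ (m + K) / 2 + 1 - (m - K + 1) / 2 := by omega
    exact_mod_cast h5.trans h4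

/-- (G) -/
theorem main_G (d K : ℕ) (w : ℝ) (hK : 1 ≤ K) (hw : 3 / 2 * (K : ℝ) ≤ w) :
    3 * (K : ℝ) / (2 * w) * (1 - (3 * d + 1) / (3 * w ^ 2)) * 2 ^ d ≤
      bs d (fun x => if |x| ≤ (K : ℝ) then 1 else 0) := by
  have hK0 : (1 : ℝ) ≤ K := by exact_mod_cast hK
  have hw0 : 0 < w := by linarith
  set a : ℝ := 3 * (K : ℝ) / (2 * w) with ha
  have ha0 : 0 < a := by positivity
  have ha1 : a ≤ 1 := by
    rw [ha, div_le_one (by positivity)]
    linarith
  set b : ℝ := a / w ^ 2 with hb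
  have hb0 : 0 < b := by positivity
  set F : ℝ → ℝ := fun x => ((if |x| ≤ (K : ℝ) then 1 else 0) + (b / 3 - a) * 1) + b * x ^ 2 with hF
  have hpos : ∀ m, 0 ≤ Sy m F := by
    intro m
    have h1 : Sy m F = Sy m (fun x => if |x| ≤ (K : ℝ) then 1 else 0) + (b / 3 - a) * (m + 1) +
        b * Sy m (fun x => x ^ 2) := by
      unfold Sy
      simp only [hF, Finset.sum_add_distrib, ← Finset.mul_sum]
      simp
    have h2 := Sy_ind m K
    rw [h1, Sy_sq]
    set W : ℝ := (m : ℝ) + 1 with hW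
    have hW0 : 0 < W := by positivity
    have h3 : b * ((m : ℝ) * (m + 1) * (m + 2) / 3) = b * (W * (W ^ 2 - 1) / 3) := by
      rw [hW]; ring
    rw [h3]
    have h4 : a * W - b * W ^ 3 / 3 ≤ min W K := by
      rcases le_total W K with h | h
      · rw [min_eq_left h]
        have : 0 ≤ b * W ^ 3 / 3 := by positivity
        nlinarith
      · rw [min_eq_right h]
        have e1 : (K : ℝ) - (a * W - b * W ^ 3 / 3) =
            K * (W - w) ^ 2 * (W + 2 * w) / (2 * w ^ 3) := by
          rw [hb, ha]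
          field_simp
          ring
        have e2 : 0 ≤ (K : ℝ) * (W - w) ^ 2 * (W + 2 * w) / (2 * w ^ 3) := by positivity
        linarith
    nlinarith
  have h5 := bs_nonneg d F hpos
  have h6 : bs d F = (bs d (fun x => if |x| ≤ (K : ℝ) then 1 else 0) + (b / 3 - a) * 2 ^ d) +
      b * (d * 2 ^ d) := by
    rw [← bs_one, ← bs_smul, ← bs_add, bs_one, ← bs_sq, ← bs_smul, ← bs_add]
  rw [h6] at h5
  have h7 : a * (1 - (3 * d + 1) / (3 * w ^ 2)) * 2 ^ d = a * 2 ^ d - b * (3 * d + 1) / 3 * 2 ^ d := by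
    rw [hb]
    field_simp
  rw [h7]
  linarith

/-- the distribution of the sum -/
theorem distr {J : Type} [Fintype J] [DecidableEq J] (S : Finset J) : ∀ F : ℝ → ℝ,
    2 ^ S.card * ∑ e : J → Bool, F (∑ j ∈ S, sg (e j)) = 2 ^ Fintype.card J * bs S.card F := by
  induction S using Finset.induction_on with
  | empty =>
    intro F
    simp [bs, Fintype.card_pi]
  | insert i S hi ih =>
    intro F
    rw [Finset.card_insert_of_notMem hi, bs_succ, ← ih]
    have h1 : ∑ e : J → Bool, F (∑ j ∈ insert i S, sg (e j)) =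
        ∑ e : J → Bool, F (-sg (e i) + ∑ j ∈ S, sg (e j)) := by
      refine Fintype.sum_equiv
        ⟨fun e => Function.update e i (!(e i)), fun e => Function.update e i (!(e i)),
          fun e => ?_, fun e => ?_⟩ _ _ fun e => ?_
      · funext j
        by_cases hj : j = i
        · subst hj; simp
        · simp [Function.update_of_ne hj]
      · funext j
        by_cases hj : j = i
        · subst hj; simp
        · simp [Function.update_of_ne hj]
      · rw [Finset.sum_insert hi]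
        simp only [Equiv.coe_fn_mk, Function.update_self]
        congr 1
        congr 1
        · unfold sg
          cases e i <;> simp
        · refine Finset.sum_congr rfl fun j hj => ?_
          rw [Function.update_of_ne]
          rintro rfl
          exact hi hj
    have h2 : ∑ e : J → Bool, (F (∑ j ∈ S, sg (e j) + 1) + F (∑ j ∈ S, sg (e j) - 1)) =
        ∑ e : J → Bool, (F (∑ j ∈ insert i S, sg (e j)) + F (-sg (e i) + ∑ j ∈ S, sg (e j))) := by
      refine Finset.sum_congr rfl fun e _ => ?_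
      rw [Finset.sum_insert hi]
      unfold sg
      cases e i
      · simp only [Bool.false_eq_true, if_false]
        rw [add_comm (F _)]
        congr 2
        · ring
        · ring
      · simp only [if_true]
        congr 2
        · ring
        · ring
    rw [h2, Finset.sum_add_distrib, ← h1, pow_succ]
    ring

theorem main : S_BIN := by
  intro J _ _ S t K ht hS hK
  have hd := distr S (fun x => if |x| ≤ (K : ℝ) then 1 else 0)
  set d := S.card with hdd
  have hd1 : 1 ≤ d := Finset.card_pos.2 hS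
  have hd1' : (1 : ℝ) ≤ d := by exact_mod_cast hd1
  have ht1 : (1 : ℝ) ≤ t := by exact_mod_cast ht
  set B := bs d (fun x => if |x| ≤ (K : ℝ) then 1 else 0) with hB
  have hind : ∑ e : J → Bool, ind S (K : ℝ) e =
      ∑ e : J → Bool, (if |∑ j ∈ S, sg (e j)| ≤ (K : ℝ) then (1 : ℝ) else 0) := rfl
  rw [hind]
  have hpd : (0 : ℝ) < 2 ^ d := by positivity
  have hpJ : (0 : ℝ) < 2 ^ Fintype.card J := by positivity
  -- it is enough to bound `B`
  suffices hBd : 2 * (t : ℝ) * 2 ^ d ≤ (2 * (t : ℝ) + d) * B by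
    have h1 : 2 ^ d * (2 * (t : ℝ) * 2 ^ Fintype.card J) ≤ 2 ^ d * ((2 * (t : ℝ) + d) *
        ∑ e : J → Bool, (if |∑ j ∈ S, sg (e j)| ≤ (K : ℝ) then (1 : ℝ) else 0)) := by
      calc 2 ^ d * (2 * (t : ℝ) * 2 ^ Fintype.card J)
          = 2 ^ Fintype.card J * (2 * (t : ℝ) * 2 ^ d) := by ring
        _ ≤ 2 ^ Fintype.card J * ((2 * (t : ℝ) + d) * B) :=
            mul_le_mul_of_nonneg_left hBd hpJ.le
        _ = (2 * (t : ℝ) + d) * (2 ^ Fintype.card J * B) := by ring
        _ = _ := by rw [← hd]; ring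
    exact le_of_mul_le_mul_left h1 hpd
  have hsq : 0 ≤ Real.sqrt t := Real.sqrt_nonneg _
  have hsq2 : Real.sqrt t ^ 2 = t := Real.sq_sqrt (by linarith)
  have hK1 : (1 : ℝ) ≤ K := by linarith
  have hK1' : 1 ≤ K := by exact_mod_cast hK1
  rcases le_or_gt d K with hdK | hdK
  · -- all the mass
    have h1 : B = 2 ^ d := by
      rw [← bs_one, hB]
      unfold bs
      refine Finset.sum_congr rfl fun i hi => ?_
      beta_reduce
      rw [if_pos]
      rw [Finset.mem_range] at hi
      have h2 : (i : ℝ) ≤ d := by exact_mod_cast Nat.lt_succ_iff.1 hi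
      have h3 : (d : ℝ) ≤ K := by exact_mod_cast hdK
      have h4 : (0 : ℝ) ≤ i := Nat.cast_nonneg i
      rw [abs_le]
      constructor <;> linarith
    rw [h1]
    have : (0 : ℝ) ≤ d * 2 ^ d := by positivity
    linarith
  have hdK' : (K : ℝ) < d := by exact_mod_cast hdK
  -- the inequality (F)
  have hF : (t : ℝ) * (3 * d + 1) ≤ (K : ℝ) ^ 2 * (2 * d) := by
    have h1 : (25 / 16 : ℝ) * t + 5 / 2 * Real.sqrt t ≤ (K : ℝ) ^ 2 := by
      have : (5 / 4 * Real.sqrt t + 1) ^ 2 ≤ (K : ℝ) ^ 2 := by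
        apply pow_le_pow_left₀ (by positivity) hK
      nlinarith
    have h2 : (5 / 4 : ℝ) * Real.sqrt t ≤ d := by linarith
    have h3 : (t : ℝ) ≤ 4 / 5 * Real.sqrt t * d := by
      nlinarith
    nlinarith [mul_le_mul_of_nonneg_right h1 (by positivity : (0 : ℝ) ≤ 2 * d)]
  have hG : ∀ w : ℝ, 3 / 2 * (K : ℝ) ≤ w →
      3 * (K : ℝ) / (2 * w) * (1 - (3 * d + 1) / (3 * w ^ 2)) * 2 ^ d ≤ B := fun w hw =>
    main_G d K w hK1' hw
  have hn : (0 : ℝ) < 2 * (t : ℝ) + d := by linarith
  have hD : (0 : ℝ) < 3 * (d : ℝ) + 1 := by linarith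
  rcases le_or_gt (9 * (K : ℝ) ^ 2) (4 * (3 * (d : ℝ) + 1)) with hc | hc
  · -- case 1
    set w := Real.sqrt (3 * (d : ℝ) + 1) with hwdef
    have hw0 : 0 < w := Real.sqrt_pos.2 hD
    have hw2 : w ^ 2 = 3 * d + 1 := Real.sq_sqrt hD.le
    have hwK : 3 / 2 * (K : ℝ) ≤ w := by
      apply Real.le_sqrt_of_sq_le
      nlinarith
    have h1 := hG w hwK
    rw [hw2] at h1
    have h2 : 3 * (K : ℝ) / (2 * w) * (1 - (3 * d + 1) / (3 * (3 * d + 1))) = K / w := by
      field_simp
      ring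
    rw [h2] at h1
    have h3 : 2 * (t : ℝ) * w ≤ K * (2 * t + d) := by
      apply le_of_sq_le_sq _ (by positivity)
      have h4 : (2 * (t : ℝ) * w) ^ 2 = 4 * t ^ 2 * (3 * d + 1) := by
        rw [mul_pow, hw2]; ring
      rw [h4]
      have h5 : 4 * (t : ℝ) ^ 2 * (3 * d + 1) ≤ 8 * t * d * K ^ 2 := by
        nlinarith [mul_le_mul_of_nonneg_left hF (by positivity : (0 : ℝ) ≤ 4 * t)]
      have h6 : 8 * (t : ℝ) * d ≤ (2 * t + d) ^ 2 := by nlinarith [sq_nonneg (2 * (t : ℝ) - d)]
      nlinarith [mul_le_mul_of_nonneg_right h6 (sq_nonneg (K : ℝ))]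
    calc 2 * (t : ℝ) * 2 ^ d ≤ (2 * t + d) * (K / w * 2 ^ d) := by
          rw [← sub_nonneg]
          have : (2 * (t : ℝ) + d) * (K / w * 2 ^ d) - 2 * t * 2 ^ d =
              (K * (2 * t + d) - 2 * t * w) / w * 2 ^ d := by
            field_simp
          rw [this]
          have h7 : 0 ≤ (K : ℝ) * (2 * t + d) - 2 * t * w := by linarith
          positivity
      _ ≤ (2 * t + d) * B := mul_le_mul_of_nonneg_left h1 hn.le
  · -- case 2
    have h1 := hG (3 / 2 * K) le_rfl
    have h2 : 3 * (K : ℝ) / (2 * (3 / 2 * K)) * (1 - (3 * d + 1) / (3 * (3 / 2 * (K : ℝ)) ^ 2)) =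
        1 - 4 * (3 * d + 1) / (27 * K ^ 2) := by
      field_simp
      ring
    rw [h2] at h1
    have h3 : 4 * (3 * (d : ℝ) + 1) * (2 * t + d) ≤ 27 * K ^ 2 * d := by
      nlinarith [mul_le_mul_of_nonneg_right hc.le (by positivity : (0 : ℝ) ≤ d)]
    calc 2 * (t : ℝ) * 2 ^ d
        ≤ (2 * t + d) * ((1 - 4 * (3 * d + 1) / (27 * K ^ 2)) * 2 ^ d) := by
          rw [← sub_nonneg]
          have : (2 * (t : ℝ) + d) * ((1 - 4 * (3 * d + 1) / (27 * K ^ 2)) * 2 ^ d) -
              2 * t * 2 ^ d =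
              (27 * K ^ 2 * d - 4 * (3 * (d : ℝ) + 1) * (2 * t + d)) / (27 * K ^ 2) * 2 ^ d := by
            field_simp
            ring
          rw [this]
          have h7 : 0 ≤ 27 * (K : ℝ) ^ 2 * d - 4 * (3 * (d : ℝ) + 1) * (2 * t + d) := by linarith
          positivity
      _ ≤ (2 * t + d) * B := mul_le_mul_of_nonneg_left h1 hn.le

end Pool.Agent.N572.KLBIN
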